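import Pool.Agent.N741.LD.Stm

/-!
LD/2: the height of an irreducible plane curve through many integral points (Siegel's lemma).
-/

set_option autoImplicit false

namespace Pool.Agent.N767.LD

open Polynomial Pool.Agent.N741.LD
open scoped Polynomial.Bivariate

theorem coeff_swap (A : ℤ[X][Y]) (i j : ℕ) :
    ((Bivariate.swap A).coeff i).coeff j = (A.coeff j).coeff i := by
  induction A using Polynomial.induction_on' with
  | add p q hp hq => rw [map_add, coeff_add, coeff_add, coeff_add, coeff_add, hp, hq]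
  | monomial n f =>
    induction f using Polynomial.induction_on' with
    | add p q hp hq =>
      rw [map_add (monomial n), map_add, coeff_add, coeff_add, coeff_add, coeff_add, hp, hq]
    | monomial m r =>
      rw [Bivariate.swap_monomial_monomial]
      simp only [coeff_monomial]
      by_cases h1 : m = i <;> by_cases h2 : n = j <;> simp [h1, h2, coeff_monomial]

theorem coeff_zero_of_dX {A : ℤ[X][Y]} {i : ℕ} (h : dX A < i) (j : ℕ) :
    (A.coeff j).coeff i = 0 := by
  rw [← coeff_swap, coeff_eq_zero_of_natDegree_lt h, coeff_zero]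

theorem dX_le {A : ℤ[X][Y]} {k : ℕ} (h : ∀ i j, k < i → (A.coeff j).coeff i = 0) : dX A ≤ k := by
  unfold dX
  rw [natDegree_le_iff_coeff_eq_zero]
  intro i hi
  ext j
  rw [coeff_swap, h i j hi, coeff_zero]

/-- the polynomial with given coefficients -/
noncomputable def pol {a d : ℕ} (t : Fin (a + 1) × Fin (d + 1) → ℤ) : ℤ[X][Y] :=
  ∑ p : Fin (a + 1) × Fin (d + 1), monomial (p.2 : ℕ) (monomial (p.1 : ℕ) (t p))

theorem coeff_pol {a d : ℕ} (t : Fin (a + 1) × Fin (d + 1) → ℤ)
    (p : Fin (a + 1) × Fin (d + 1)) : ((pol t).coeff p.2).coeff p.1 = t p := by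
  unfold pol
  rw [finsetSum_coeff, finsetSum_coeff, Finset.sum_eq_single p]
  · simp
  · intro q _ hq
    rw [coeff_monomial]
    split_ifs with h
    · rw [coeff_monomial, if_neg]
      intro h'
      exact hq (Prod.ext (Fin.ext h') (Fin.ext h))
    · simp
  · simp

theorem coeff_pol_zero {a d : ℕ} (t : Fin (a + 1) × Fin (d + 1) → ℤ) (i j : ℕ)
    (h : a < i ∨ d < j) : ((pol t).coeff j).coeff i = 0 := by
  unfold pol
  rw [finsetSum_coeff, finsetSum_coeff]
  refine Finset.sum_eq_zero fun q _ => ?_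
  rw [coeff_monomial]
  split_ifs with h1
  · rw [coeff_monomial, if_neg]
    intro h2
    have := q.1.isLt
    have := q.2.isLt
    omega
  · simp

theorem eval_pol {a d : ℕ} (t : Fin (a + 1) × Fin (d + 1) → ℤ) (x y : ℤ) :
    (pol t).evalEval x y = ∑ p : Fin (a + 1) × Fin (d + 1), x ^ (p.1 : ℕ) * y ^ (p.2 : ℕ) * t p := by
  unfold pol evalEval
  rw [eval_finsetSum, eval_finsetSum]
  refine Finset.sum_congr rfl fun p _ => ?_
  rw [eval_monomial, eval_mul, eval_monomial, ← C_pow, eval_C]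
  ring

theorem pol_eq {A : ℤ[X][Y]} {a d : ℕ} (ha : dX A ≤ a) (hd : A.natDegree ≤ d) :
    pol (fun p : Fin (a + 1) × Fin (d + 1) => (A.coeff p.2).coeff p.1) = A := by
  ext j i
  by_cases h : a < i ∨ d < j
  · rw [coeff_pol_zero _ _ _ h]
    rcases h with h | h
    · rw [coeff_zero_of_dX (lt_of_le_of_lt ha h)]
    · rw [coeff_eq_zero_of_natDegree_lt (lt_of_le_of_lt hd h), coeff_zero]
  · push Not at h
    exact coeff_pol _ (⟨i, by omega⟩, ⟨j, by omega⟩)

attribute [local instance] Matrix.seminormedAddCommGroup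

theorem hgt (h : Bez) : Hgt := by
  classical
  intro A a d N hA hA1 ha hd hN S hS hcard i j
  obtain ⟨a0, ha0⟩ : ∃ a0, a0 = dX A := ⟨_, rfl⟩
  obtain ⟨d0, hd0⟩ : ∃ d0, d0 = A.natDegree := ⟨_, rfl⟩
  have hN1 : (1 : ℤ) ≤ N := by exact_mod_cast hN
  -- the rows
  let β := Fin (a0 + 1) × Fin (d0 + 1)
  let row : ℤ × ℤ → β → ℤ := fun v p => v.1 ^ (p.1 : ℕ) * v.2 ^ (p.2 : ℕ)
  let f : S → β → ℚ := fun v p => ((row v p : ℤ) : ℚ)
  have hcardβ : Fintype.card β = (a0 + 1) * (d0 + 1) := by simp [β]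
  -- the functional given by a vector
  let L : (β → ℚ) → ((β → ℚ) →ₗ[ℚ] ℚ) := fun c => Fintype.linearCombination ℚ c
  have hL : ∀ c u, L c u = ∑ p, u p * c p := by
    intro c u
    simp [L, Fintype.linearCombination_apply]
  let c : β → ℤ := fun p => (A.coeff p.2).coeff p.1
  have hc0 : c ≠ 0 := by
    intro hc
    have : A = 0 := by
      rw [← pol_eq (A := A) (a := a0) (d := d0) ha0.ge hd0.ge]
      change pol c = 0
      rw [hc]
      simp [pol]
    exact hA.ne_zero this
  have hcv : ∀ v : S, ∑ p, row v p * c p = 0 := by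
    intro v
    have h1 := (hS v v.2).2.2
    rw [← pol_eq (A := A) (a := a0) (d := d0) ha0.ge hd0.ge, eval_pol] at h1
    exact h1
  have hcast : ∀ (v : S) (u : β → ℤ), ∑ p, f v p * (u p : ℚ) = ((∑ p, row v p * u p : ℤ) : ℚ) := by
    intro v u
    simp only [f]
    push_cast
    rfl
  obtain ⟨κ, b, hb, hspan, hli⟩ := exists_linearIndependent' ℚ f
  have : Finite κ := Finite.of_injective b hb
  have : Fintype κ := Fintype.ofFinite κ
  -- the rank
  have hker : Submodule.span ℚ (Set.range f) ≤ LinearMap.ker (L (fun p => (c p : ℚ))) := by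
    rw [Submodule.span_le]
    rintro _ ⟨v, rfl⟩
    rw [SetLike.mem_coe, LinearMap.mem_ker, hL, hcast, hcv, Int.cast_zero]
  have hκ : Fintype.card κ < Fintype.card β := by
    have h1 := linearIndependent_iff_card_eq_finrank_span.1 hli
    rw [Set.finrank, hspan] at h1
    rw [h1]
    have h2 : Submodule.span ℚ (Set.range f) < ⊤ := by
      refine lt_of_le_of_lt hker (lt_top_iff_ne_top.2 fun h3 => ?_)
      rw [LinearMap.ker_eq_top] at h3
      obtain ⟨p, hp⟩ := Function.ne_iff.1 hc0
      have h4 : L (fun p => (c p : ℚ)) (Pi.single p 1) = c p := by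
        rw [hL, Finset.sum_eq_single p]
        · simp
        · intro q _ hq
          rw [Pi.single_eq_of_ne hq, zero_mul]
        · simp
      rw [h3] at h4
      apply hp
      have h5 : ((c p : ℤ) : ℚ) = 0 := by rw [← h4]; rfl
      exact_mod_cast h5
    have h3 := Submodule.finrank_lt h2.ne
    simpa using h3
  have hSne : S.Nonempty := Finset.card_pos.1 (by omega)
  obtain ⟨v0, hv0⟩ := hSne
  have hκ0 : 0 < Fintype.card κ := by
    rw [Fintype.card_pos_iff]
    by_contra hne
    rw [not_nonempty_iff] at hne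
    have h1 : Set.range (f ∘ b) = ∅ := Set.range_eq_empty _
    rw [h1, Submodule.span_empty] at hspan
    have h2 : f ⟨v0, hv0⟩ ∈ Submodule.span ℚ (Set.range f) := Submodule.subset_span ⟨_, rfl⟩
    rw [← hspan, Submodule.mem_bot] at h2
    have h3 := congrFun h2 (0, 0)
    simp [f, row] at h3
  -- Siegel's lemma
  let M : Matrix κ β ℤ := fun k p => row (b k) p
  obtain ⟨t, ht0, htM, htn⟩ := Int.Matrix.exists_ne_zero_int_vec_norm_le M hκ hκ0
  have htv : ∀ v : S, ∑ p, row v p * t p = 0 := by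
    intro v
    have h1 : Submodule.span ℚ (Set.range f) ≤ LinearMap.ker (L (fun p => (t p : ℚ))) := by
      rw [← hspan, Submodule.span_le]
      rintro _ ⟨k, rfl⟩
      have h2 := congrFun htM k
      rw [Matrix.mulVec, dotProduct] at h2
      simp only [Pi.zero_apply] at h2
      change ∑ p, row (b k) p * t p = 0 at h2
      rw [SetLike.mem_coe, LinearMap.mem_ker, hL, Function.comp, hcast, h2, Int.cast_zero]
    have h2 := h1 (Submodule.subset_span ⟨v, rfl⟩)
    rw [LinearMap.mem_ker, hL, hcast] at h2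
    exact_mod_cast h2
  -- the auxiliary polynomial
  have hG0 : pol t ≠ 0 := by
    intro hG
    apply ht0
    funext p
    rw [← coeff_pol t p, hG]
    simp
  have hGd : (pol t).natDegree ≤ d0 := by
    rw [natDegree_le_iff_coeff_eq_zero]
    intro m hm
    ext i
    rw [coeff_pol_zero t i m (Or.inr hm), coeff_zero]
  have hGa : dX (pol t) ≤ a0 := dX_le fun i j hi => coeff_pol_zero t i j (Or.inl hi)
  have hdvd : A ∣ pol t := by
    by_contra hnd
    have h1 := h A (pol t) a0 a0 d0 d0 hA hA1 hnd ha0.ge hGa hd0.ge hGd S (fun v hv =>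
      ⟨(hS v hv).2.2, by rw [eval_pol]; exact htv ⟨v, hv⟩⟩)
    have h2 : (d0 * a0 + d0 * a0) * d0 = 2 * a0 * d0 ^ 2 := by ring
    rw [h2] at h1
    have h3 : 2 * a0 * d0 ^ 2 ≤ 2 * a * d ^ 2 := by
      rw [ha0, hd0]
      gcongr
    omega
  obtain ⟨H, hH⟩ := hdvd
  have hH0 : H ≠ 0 := by
    rintro rfl
    rw [mul_zero] at hH
    exact hG0 hH
  have hHd : H.natDegree = 0 := by
    have h1 := natDegree_mul hA.ne_zero hH0
    rw [← hH] at h1
    omega
  have hHa : dX H = 0 := by
    have hs : Bivariate.swap (pol t) = Bivariate.swap A * Bivariate.swap H := by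
      rw [hH, map_mul]
    have hsA : Bivariate.swap A ≠ 0 := fun h0 => hA.ne_zero ((map_eq_zero_iff _ (Bivariate.swap (R := ℤ)).injective).1 h0)
    have hsH : Bivariate.swap H ≠ 0 := fun h0 => hH0 ((map_eq_zero_iff _ (Bivariate.swap (R := ℤ)).injective).1 h0)
    have h1 := natDegree_mul hsA hsH
    rw [← hs] at h1
    unfold dX at hGa ha0 ⊢
    omega
  -- `H` is constant
  set e : ℤ := (H.coeff 0).coeff 0 with he
  have hHC : H = C (C e) := by
    ext j i
    rw [coeff_C]
    split_ifs with hj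
    · rw [coeff_C]
      split_ifs with hi
      · rw [hj, hi]
      · rw [coeff_zero_of_dX (by omega)]
    · rw [show H.coeff j = 0 from coeff_eq_zero_of_natDegree_lt (by omega)]
  have he0 : e ≠ 0 := by
    intro h0
    rw [h0] at hHC
    simp at hHC
    exact hH0 hHC
  have hco : ((pol t).coeff j).coeff i = (A.coeff j).coeff i * e := by
    rw [hH, hHC, coeff_mul_C, coeff_mul_C]
  -- the bound
  have hbound : ∀ p, ((t p).natAbs : ℝ) ≤ (((a + 1) * (d + 1) * N ^ (a + d)) ^ ((a + 1) * (d + 1)) : ℕ) := by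
    intro p
    have h1 : ((t p).natAbs : ℝ) ≤ ‖t‖ := by
      have := norm_le_pi_norm t p
      rw [Int.norm_eq_abs] at this
      rw [Nat.cast_natAbs]
      simpa using this
    have hM : ‖M‖ ≤ (N : ℝ) ^ (a0 + d0) := by
      rw [Matrix.norm_le_iff (by positivity)]
      intro k p
      rw [Int.norm_eq_abs]
      have hk := hS (b k) (b k).2
      have h2 : |row (b k) p| ≤ (N : ℤ) ^ (a0 + d0) := by
        simp only [row]
        rw [abs_mul, abs_pow, abs_pow]
        have hp1 := p.1.isLt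
        have hp2 := p.2.isLt
        calc |(b k : ℤ × ℤ).1| ^ (p.1 : ℕ) * |(b k : ℤ × ℤ).2| ^ (p.2 : ℕ)
            ≤ (N : ℤ) ^ (p.1 : ℕ) * (N : ℤ) ^ (p.2 : ℕ) := by
              gcongr
              · exact hk.1
              · exact hk.2.1
          _ = (N : ℤ) ^ ((p.1 : ℕ) + (p.2 : ℕ)) := (pow_add _ _ _).symm
          _ ≤ (N : ℤ) ^ (a0 + d0) := pow_le_pow_right₀ hN1 (by omega)
      change |((row (b k) p : ℤ) : ℝ)| ≤ _
      have h3 : ((|row (b k) p| : ℤ) : ℝ) ≤ (((N : ℤ) ^ (a0 + d0) : ℤ) : ℝ) := by exact_mod_cast h2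
      push_cast at h3
      exact_mod_cast h3
    have hN1' : (1 : ℝ) ≤ N := by exact_mod_cast hN
    have hmax : max 1 ‖M‖ ≤ (N : ℝ) ^ (a0 + d0) := max_le (one_le_pow₀ hN1') hM
    have hbase : (1 : ℝ) ≤ (Fintype.card β : ℝ) * max 1 ‖M‖ := by
      have h2 : (1 : ℝ) ≤ Fintype.card β := by
        have : 0 < Fintype.card β := by omega
        exact_mod_cast this
      have h3 : (1 : ℝ) ≤ max 1 ‖M‖ := le_max_left _ _
      nlinarith
    have hexp : ((Fintype.card κ : ℝ) / ((Fintype.card β : ℝ) - Fintype.card κ)) ≤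
        (Fintype.card β : ℝ) := by
      have h2 : (Fintype.card κ : ℝ) + 1 ≤ Fintype.card β := by exact_mod_cast hκ
      rw [div_le_iff₀ (by linarith)]
      have h3 : (0 : ℝ) ≤ Fintype.card β := by positivity
      nlinarith
    calc ((t p).natAbs : ℝ) ≤ ‖t‖ := h1
      _ ≤ _ := htn
      _ ≤ ((Fintype.card β : ℝ) * max 1 ‖M‖) ^ (Fintype.card β : ℝ) :=
          Real.rpow_le_rpow_of_exponent_le hbase hexp
      _ = ((Fintype.card β : ℝ) * max 1 ‖M‖) ^ (Fintype.card β) := Real.rpow_natCast _ _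
      _ ≤ (((a + 1) * (d + 1) : ℕ) * (N : ℝ) ^ (a + d)) ^ (Fintype.card β) := by
          have h2 : (Fintype.card β : ℝ) ≤ ((a + 1) * (d + 1) : ℕ) := by
            rw [hcardβ, ha0, hd0]
            exact_mod_cast Nat.mul_le_mul (by omega) (by omega)
          have h3 : (N : ℝ) ^ (a0 + d0) ≤ (N : ℝ) ^ (a + d) :=
            pow_le_pow_right₀ hN1' (by omega)
          have h4 : (0 : ℝ) ≤ max 1 ‖M‖ := le_trans zero_le_one (le_max_left _ _)
          gcongr
          exact hmax.trans h3
      _ ≤ (((a + 1) * (d + 1) : ℕ) * (N : ℝ) ^ (a + d)) ^ ((a + 1) * (d + 1)) := by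
          refine pow_le_pow_right₀ ?_ ?_
          · have h2 : (1 : ℝ) ≤ ((a + 1) * (d + 1) : ℕ) := by
              exact_mod_cast Nat.one_le_iff_ne_zero.2 (by positivity)
            have h3 : (1 : ℝ) ≤ (N : ℝ) ^ (a + d) := one_le_pow₀ hN1'
            nlinarith
          · rw [hcardβ, ha0, hd0]
            exact Nat.mul_le_mul (by omega) (by omega)
      _ = _ := by push_cast; ring
  -- conclusion
  by_cases hij : a0 < i ∨ d0 < j
  · have : (A.coeff j).coeff i = 0 := by
      rcases hij with h1 | h1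
      · exact coeff_zero_of_dX (by omega) j
      · rw [show A.coeff j = 0 from coeff_eq_zero_of_natDegree_lt (by omega), coeff_zero]
    rw [this]
    simp
  · push Not at hij
    have h1 := coeff_pol t (⟨i, by omega⟩, ⟨j, by omega⟩)
    simp only at h1
    rw [hco] at h1
    have h2 := hbound (⟨i, by omega⟩, ⟨j, by omega⟩)
    have h3 : (t (⟨i, by omega⟩, ⟨j, by omega⟩)).natAbs ≤
        (((a + 1) * (d + 1) * N ^ (a + d)) ^ ((a + 1) * (d + 1)) : ℕ) := by exact_mod_cast h2
    rw [← h1, Int.natAbs_mul] at h3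
    have h4 : 1 ≤ e.natAbs := Nat.one_le_iff_ne_zero.2 (by simpa using he0)
    calc ((A.coeff j).coeff i).natAbs ≤ ((A.coeff j).coeff i).natAbs * e.natAbs :=
          Nat.le_mul_of_pos_right _ h4
      _ ≤ _ := h3

end Pool.Agent.N767.LD
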