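import Pool.Agent.N767.LD.Hgt
import Pool.Agent.N852.Div

/-!
LD/4: few coprime points on curves whose support is contained in a line.
-/

set_option autoImplicit false

namespace Pool.Agent.N767.LD

open Polynomial Pool.Agent.N741.LD
open scoped Polynomial.Bivariate

/-- the support of an irreducible polynomial depending on both variables is not horizontal -/
theorem not_horizontal {A : ℤ[X][Y]} (hA : Irreducible A) (h1 : 1 ≤ A.natDegree) (h2 : 1 ≤ dX A)
    (j0 : ℕ) : ∃ i j : ℕ, (A.coeff j).coeff i ≠ 0 ∧ j ≠ j0 := by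
  by_contra hcon
  push Not at hcon
  have hz : ∀ j, j ≠ j0 → A.coeff j = 0 := by
    intro j hj
    ext i
    by_contra h
    exact hj (hcon i j (by simpa using h))
  have hA' : A = C (A.coeff j0) * X ^ j0 := by
    ext j i
    rw [coeff_C_mul, coeff_X_pow]
    split_ifs with h
    · rw [h, mul_one]
    · rw [hz j h, mul_zero]
  have hj0 : 1 ≤ j0 := by
    by_contra h
    have : j0 = 0 := by omega
    rw [hA', this, pow_zero, mul_one, natDegree_C] at h1
    omega
  rcases hA.isUnit_or_isUnit hA' with hu | hu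
  · have h3 : IsUnit (A.coeff j0) := isUnit_C.1 hu
    have h4 : (A.coeff j0).natDegree = 0 := natDegree_eq_zero_of_isUnit h3
    have h5 : dX A ≤ 0 := dX_le fun i j hi => by
      by_cases hj : j = j0
      · rw [hj]
        exact coeff_eq_zero_of_natDegree_lt (by omega)
      · rw [hz j hj, coeff_zero]
    omega
  · have h3 := natDegree_eq_zero_of_isUnit hu
    rw [natDegree_X_pow] at h3
    omega

theorem dX_swap (A : ℤ[X][Y]) : dX (Bivariate.swap A) = A.natDegree := by
  unfold dX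
  rw [Bivariate.swap_swap_apply]

theorem not_vertical {A : ℤ[X][Y]} (hA : Irreducible A) (h1 : 1 ≤ A.natDegree) (h2 : 1 ≤ dX A)
    (i0 : ℕ) : ∃ i j : ℕ, (A.coeff j).coeff i ≠ 0 ∧ i ≠ i0 := by
  have hs : Irreducible (Bivariate.swap A) := (MulEquiv.irreducible_iff (Bivariate.swap (R := ℤ))).2 hA
  obtain ⟨i, j, h, h'⟩ := not_horizontal hs h2 (by rw [dX_swap]; exact h1) i0
  rw [coeff_swap] at h
  exact ⟨j, i, h, h'⟩

theorem dir (α β : ℤ) (hα : α ≠ 0) (hβ : β ≠ 0) : ∃ u v : ℤ, 0 < u ∧ v ≠ 0 ∧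
    ∀ p q : ℤ, α * p + β * q = 0 → ∃ k : ℤ, p = k * u ∧ q = k * v := by
  have hg : 0 < Int.gcd α β := Int.gcd_pos_of_ne_zero_left _ hα
  obtain ⟨g, a, b, hg0, hco, ha, hb⟩ := Int.exists_gcd_one' hg
  have hg0' : (g : ℤ) ≠ 0 := by exact_mod_cast hg0.ne'
  have hb0 : b ≠ 0 := by
    rintro rfl
    exact hβ (by rw [hb, zero_mul])
  have ha0 : a ≠ 0 := by
    rintro rfl
    exact hα (by rw [ha, zero_mul])
  have hcop : IsCoprime b a := (Int.isCoprime_iff_gcd_eq_one.2 hco).symm
  have key : ∀ p q : ℤ, α * p + β * q = 0 → ∃ k : ℤ, p = b * k ∧ q = -a * k := by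
    intro p q h
    have h1 : a * p + b * q = 0 := by
      have : (g : ℤ) * (a * p + b * q) = 0 := by rw [← h, ha, hb]; ring
      rcases mul_eq_zero.1 this with h2 | h2
      · exact absurd h2 hg0'
      · exact h2
    have h2 : b ∣ a * p := ⟨-q, by linarith⟩
    obtain ⟨k, hk⟩ := hcop.dvd_of_dvd_mul_left h2
    refine ⟨k, hk, ?_⟩
    rw [hk] at h1
    have h3 : b * (a * k + q) = 0 := by linarith
    rcases mul_eq_zero.1 h3 with h4 | h4
    · exact absurd h4 hb0
    · linarith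
  rcases lt_or_gt_of_ne hb0 with h | h
  · refine ⟨-b, a, by linarith, ha0, fun p q hpq => ?_⟩
    obtain ⟨k, hk1, hk2⟩ := key p q hpq
    exact ⟨-k, by rw [hk1]; ring, by rw [hk2]; ring⟩
  · refine ⟨b, -a, h, by simpa using ha0, fun p q hpq => ?_⟩
    obtain ⟨k, hk1, hk2⟩ := key p q hpq
    exact ⟨k, by rw [hk1]; ring, by rw [hk2]; ring⟩

/-- the points of a fibre, exponents of opposite signs -/
theorem fibre_a {u v x y x' y' : ℕ} (hu : 0 < u) (hv : 0 < v) (hx' : 1 ≤ x') (hc : Nat.Coprime x y) (hc' : Nat.Coprime x' y')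
    (h : x ^ u * y' ^ v = x' ^ u * y ^ v) : x = x' ∧ y = y' := by
  have h1 : x ^ u ∣ x' ^ u := by
    refine (Nat.Coprime.pow u v hc).dvd_of_dvd_mul_right (n := y ^ v) ?_
    exact ⟨y' ^ v, h.symm⟩
  have h2 : x' ^ u ∣ x ^ u := by
    refine (Nat.Coprime.pow u v hc').dvd_of_dvd_mul_right (n := y' ^ v) ?_
    exact ⟨y ^ v, h⟩
  have h3 : x ^ u = x' ^ u := Nat.dvd_antisymm h1 h2
  have h4 : x = x' := Nat.pow_left_injective hu.ne' h3
  refine ⟨h4, ?_⟩
  rw [h3] at h
  have h5 : y' ^ v = y ^ v := Nat.eq_of_mul_eq_mul_left (by positivity) h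
  exact (Nat.pow_left_injective hv.ne' h5).symm


theorem spe : Spe := by
  classical
  intro E ε hε
  by_cases hE : E = 0
  · refine ⟨0, fun N _ A _ h1 _ h3 => ?_⟩
    omega
  have hE1 : 1 ≤ E := by omega
  have hEr : (0 : ℝ) < E := by exact_mod_cast hE1
  obtain ⟨C, hC, hdiv⟩ := Pool.Agent.N852.divisor_bound (ε / (4 * E)) (by positivity)
  set C' := max C 1 with hC'
  have hC'1 : 1 ≤ C' := le_max_right _ _
  obtain ⟨N0, hN01, hN0⟩ : ∃ N0 : ℕ, 1 ≤ N0 ∧ ∀ N : ℕ, N0 ≤ N → (E : ℝ) * C' ≤ (N : ℝ) ^ (ε / 2) := by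
    have h1 := (tendsto_rpow_atTop (half_pos hε)).comp (tendsto_natCast_atTop_atTop (R := ℝ))
    obtain ⟨N1, h⟩ := (h1.eventually_ge_atTop ((E : ℝ) * C')).exists_forall_of_atTop
    exact ⟨max N1 1, le_max_right _ _, fun N hN => h N ((le_max_left _ _).trans hN)⟩
  refine ⟨N0, fun N hN A hA h1 h2 h3 h4 hcol S hS => ?_⟩
  have hN1 : 1 ≤ N := by omega
  have hN1r : (1 : ℝ) ≤ N := by exact_mod_cast hN1
  have hNε : (1 : ℝ) ≤ (N : ℝ) ^ (ε / 2) := Real.one_le_rpow hN1r (by positivity)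
  obtain ⟨α, β, c, hαβ, hsup⟩ := hcol
  have hα : α ≠ 0 := by
    rintro rfl
    have hβ : β ≠ 0 := by simpa using hαβ
    obtain ⟨i1, j1, h5, -⟩ := not_horizontal hA h1 h2 0
    obtain ⟨i2, j2, h6, h7⟩ := not_horizontal hA h1 h2 j1
    have h8 := hsup i1 j1 h5
    have h9 := hsup i2 j2 h6
    rw [← h8] at h9
    simp only [zero_mul, zero_add] at h9
    exact h7 (by exact_mod_cast mul_left_cancel₀ hβ h9)
  have hβ : β ≠ 0 := by
    rintro rfl
    obtain ⟨i1, j1, h5, -⟩ := not_vertical hA h1 h2 0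
    obtain ⟨i2, j2, h6, h7⟩ := not_vertical hA h1 h2 i1
    have h8 := hsup i1 j1 h5
    have h9 := hsup i2 j2 h6
    rw [← h8] at h9
    simp only [zero_mul, add_zero] at h9
    exact h7 (by exact_mod_cast mul_left_cancel₀ hα h9)
  obtain ⟨u, v, hu, hv, hdir⟩ := dir α β hα hβ
  lift u to ℕ using hu.le
  have hu' : 0 < u := by exact_mod_cast hu
  have hex : ∃ i, ∃ j, (A.coeff j).coeff i ≠ 0 := by
    obtain ⟨i1, j1, h5, -⟩ := not_horizontal hA h1 h2 0
    exact ⟨i1, j1, h5⟩
  obtain ⟨i0, ⟨j0, hj0⟩, hmin⟩ : ∃ i0, (∃ j, (A.coeff j).coeff i0 ≠ 0) ∧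
      ∀ i j, (A.coeff j).coeff i ≠ 0 → i0 ≤ i :=
    ⟨Nat.find hex, Nat.find_spec hex, fun i j h => Nat.find_min' hex ⟨j, h⟩⟩
  have hib : ∀ i j, (A.coeff j).coeff i ≠ 0 → i ≤ E ∧ j ≤ E := by
    intro i j h
    constructor
    · by_contra hi
      exact h (coeff_zero_of_dX (by omega) j)
    · by_contra hj
      apply h
      rw [show A.coeff j = 0 from coeff_eq_zero_of_natDegree_lt (by omega), coeff_zero]
  have hk : ∀ i j, (A.coeff j).coeff i ≠ 0 → ∃ k : ℕ, (i : ℤ) = i0 + k * u ∧ (j : ℤ) = j0 + k * v := by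
    intro i j h
    obtain ⟨k, hk1, hk2⟩ := hdir (i - i0) (j - j0) (by
      have h5 := hsup i j h
      have h6 := hsup i0 j0 hj0
      linarith)
    have h5 := hmin i j h
    have h6 : 0 ≤ k := by
      by_contra hneg
      push Not at hneg
      have h7 : (0 : ℤ) ≤ i - i0 := by
        have : (i0 : ℤ) ≤ i := by exact_mod_cast h5
        linarith
      rw [hk1] at h7
      nlinarith
    lift k to ℕ using h6
    exact ⟨k, by linarith, by linarith⟩
  -- the direction is small
  have huv : (u : ℤ) ≤ E ∧ |v| ≤ E := by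
    obtain ⟨i1, j1, h5, h6⟩ := not_horizontal hA h1 h2 j0
    obtain ⟨k, hk1, hk2⟩ := hk i1 j1 h5
    have hk0 : 1 ≤ k := by
      by_contra h7
      have : k = 0 := by omega
      rw [this] at hk2
      apply h6
      have h8 : (j1 : ℤ) = j0 := by simpa using hk2
      exact_mod_cast h8
    have hk0' : (1 : ℤ) ≤ k := by exact_mod_cast hk0
    have hb1 := (hib i1 j1 h5)
    have hb0 := (hib i0 j0 hj0)
    have hb1' : (i1 : ℤ) ≤ E ∧ (j1 : ℤ) ≤ E := by exact_mod_cast hb1
    have hb0' : (i0 : ℤ) ≤ E ∧ (j0 : ℤ) ≤ E := by exact_mod_cast hb0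
    have hn1 : (0 : ℤ) ≤ i0 := Int.natCast_nonneg _
    have hn2 : (0 : ℤ) ≤ j0 := Int.natCast_nonneg _
    have hn3 : (0 : ℤ) ≤ j1 := Int.natCast_nonneg _
    constructor
    · nlinarith
    · have h7 : |(k : ℤ) * v| ≤ E := by
        have : (k : ℤ) * v = j1 - j0 := by linarith
        rw [this, abs_le]
        constructor <;> linarith
      rw [abs_mul, abs_of_nonneg (by linarith : (0 : ℤ) ≤ k)] at h7
      nlinarith [abs_nonneg v]
  -- the polynomial in `w`
  let t : Fin (E + 1) × Fin (E + 1) → ℤ := fun p => (A.coeff p.2).coeff p.1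
  let f : ℚ[X] := ∑ p : Fin (E + 1) × Fin (E + 1), monomial (((p.1 : ℕ) - i0) / u) ((t p : ℤ) : ℚ)
  have hdeg : f.natDegree ≤ E := by
    apply natDegree_sum_le_of_forall_le
    intro p _
    refine (natDegree_monomial_le _).trans ?_
    have := p.1.isLt
    exact (Nat.div_le_self _ _).trans (by omega)
  have hkp : ∀ p : Fin (E + 1) × Fin (E + 1), t p ≠ 0 → ∃ k : ℕ, (((p.1 : ℕ) - i0) / u) = k ∧
      ((p.1 : ℕ) : ℤ) = i0 + k * u ∧ ((p.2 : ℕ) : ℤ) = j0 + k * v := by
    intro p hp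
    obtain ⟨k, hk1, hk2⟩ := hk p.1 p.2 hp
    refine ⟨k, ?_, hk1, hk2⟩
    have h5 : (p.1 : ℕ) = i0 + k * u := by exact_mod_cast hk1
    rw [h5, Nat.add_sub_cancel_left, Nat.mul_div_cancel _ hu']
  have hf0 : f ≠ 0 := by
    have h5 : f.coeff 0 = (((A.coeff j0).coeff i0 : ℤ) : ℚ) := by
      simp only [f]
      rw [finsetSum_coeff]
      have hb0 := (hib i0 j0 hj0)
      rw [Finset.sum_eq_single ((⟨i0, by omega⟩, ⟨j0, by omega⟩) : Fin (E + 1) × Fin (E + 1))]
      · simp [t]
      · intro q _ hq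
        by_cases hq0 : t q = 0
        · rw [hq0]; simp
        · obtain ⟨k, hk1, hk2, hk3⟩ := hkp q hq0
          rw [hk1, coeff_monomial, if_neg]
          rintro rfl
          apply hq
          refine Prod.ext (Fin.ext ?_) (Fin.ext ?_)
          · have : ((q.1 : ℕ) : ℤ) = i0 := by simpa using hk2
            simpa using this
          · have : ((q.2 : ℕ) : ℤ) = j0 := by simpa using hk3
            simpa using this
      · simp
    intro h6
    rw [h6, coeff_zero] at h5
    exact hj0 (by exact_mod_cast h5.symm)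
  let φ : ℕ × ℕ → ℚ := fun z => (z.1 : ℚ) ^ (u : ℤ) * (z.2 : ℚ) ^ v
  have hroot : ∀ z ∈ S, f.eval (φ z) = 0 := by
    intro z hz
    obtain ⟨hx, -, hy, -, -, hz0⟩ := hS z hz
    have hx0 : (z.1 : ℚ) ≠ 0 := by
      have : z.1 ≠ 0 := by omega
      exact_mod_cast this
    have hy0 : (z.2 : ℚ) ≠ 0 := by
      have : z.2 ≠ 0 := by omega
      exact_mod_cast this
    have h5 : ((z.1 : ℚ) ^ (i0 : ℤ) * (z.2 : ℚ) ^ (j0 : ℤ)) * f.eval (φ z) =
        ((A.evalEval (z.1 : ℤ) (z.2 : ℤ) : ℤ) : ℚ) := by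
      conv_rhs => rw [← pol_eq (A := A) (a := E) (d := E) h4 h3]
      rw [eval_pol]
      simp only [f]
      rw [eval_finsetSum, Finset.mul_sum]
      push_cast
      refine Finset.sum_congr rfl fun p _ => ?_
      rw [eval_monomial]
      by_cases hp : t p = 0
      · have hp' : (A.coeff p.2).coeff p.1 = 0 := hp
        rw [hp, hp']; simp
      · obtain ⟨k, hk1, hk2, hk3⟩ := hkp p hp
        rw [hk1]
        simp only [φ]
        rw [mul_pow, ← zpow_natCast ((z.1 : ℚ) ^ (u : ℤ)), ← zpow_natCast ((z.2 : ℚ) ^ v), ← zpow_mul,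
          ← zpow_mul, ← zpow_natCast (z.1 : ℚ) (p.1 : ℕ), ← zpow_natCast (z.2 : ℚ) (p.2 : ℕ), hk2, hk3,
          zpow_add₀ hx0, zpow_add₀ hy0, mul_comm (k : ℤ) (u : ℤ), mul_comm (k : ℤ) v]
        simp only [t]
        ring
    rw [hz0, Int.cast_zero] at h5
    rcases mul_eq_zero.1 h5 with h6 | h6
    · exfalso
      have : ((z.1 : ℚ) ^ (i0 : ℤ) * (z.2 : ℚ) ^ (j0 : ℤ)) ≠ 0 :=
        mul_ne_zero (zpow_ne_zero _ hx0) (zpow_ne_zero _ hy0)
      exact this h6
    · exact h6
  have himg : (S.image φ).card ≤ E := by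
    have h5 : S.image φ ⊆ f.roots.toFinset := by
      intro w hw
      obtain ⟨z, hz, rfl⟩ := Finset.mem_image.1 hw
      rw [Multiset.mem_toFinset, mem_roots hf0]
      exact hroot z hz
    exact (Finset.card_le_card h5).trans ((Multiset.toFinset_card_le _).trans
      ((card_roots' _).trans hdeg))
  have hfib : ∀ w ∈ S.image φ, (S.filter fun z => φ z = w).card ≤ ⌊C' * (N : ℝ) ^ (ε / 2)⌋₊ := by
    intro w hw
    obtain ⟨z1, hz1, hw1⟩ := Finset.mem_image.1 hw
    apply Nat.le_floor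
    rcases lt_or_gt_of_ne hv with hvn | hvp
    · -- at most one point
      obtain ⟨v', hv'⟩ : ∃ v' : ℕ, v = -(v' : ℤ) := ⟨v.natAbs, by omega⟩
      have hv'0 : 0 < v' := by omega
      have h5 : (S.filter fun z => φ z = w).card ≤ 1 := by
        rw [Finset.card_le_one]
        intro a ha b hb
        rw [Finset.mem_filter] at ha hb
        obtain ⟨hax, -, hay, -, hac, -⟩ := hS a ha.1
        obtain ⟨hbx, -, hby, -, hbc, -⟩ := hS b hb.1
        have h6 : φ a = φ b := ha.2.trans hb.2.symm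
        simp only [φ, hv', zpow_neg, zpow_natCast] at h6
        have ha2 : (a.2 : ℚ) ≠ 0 := by
          have : a.2 ≠ 0 := by omega
          exact_mod_cast this
        have hb2 : (b.2 : ℚ) ≠ 0 := by
          have : b.2 ≠ 0 := by omega
          exact_mod_cast this
        rw [← div_eq_mul_inv, ← div_eq_mul_inv, div_eq_div_iff (pow_ne_zero _ ha2) (pow_ne_zero _ hb2)] at h6
        have h7 : a.1 ^ u * b.2 ^ v' = b.1 ^ u * a.2 ^ v' := by exact_mod_cast h6
        obtain ⟨h8, h9⟩ := fibre_a hu' hv'0 hbx hac hbc h7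
        exact Prod.ext h8 h9
      calc ((S.filter fun z => φ z = w).card : ℝ) ≤ 1 := by exact_mod_cast h5
        _ ≤ C' * (N : ℝ) ^ (ε / 2) := by nlinarith
    · obtain ⟨v', hv'⟩ : ∃ v' : ℕ, v = (v' : ℤ) := ⟨v.natAbs, by omega⟩
      have hv'0 : 0 < v' := by omega
      have hφ : ∀ z : ℕ × ℕ, φ z = ((z.1 ^ u * z.2 ^ v' : ℕ) : ℚ) := by
        intro z
        simp only [φ, hv', zpow_natCast]
        push_cast
        ring
      obtain ⟨hx1, hxN, hy1, hyN, -, -⟩ := hS z1 hz1
      set m : ℕ := z1.1 ^ u * z1.2 ^ v' with hm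
      have hm0 : m ≠ 0 := by positivity
      have h5 : (S.filter fun z => φ z = w).card ≤ m.divisors.card := by
        have h6 : ∀ z ∈ S.filter (fun z => φ z = w), z.1 ^ u * z.2 ^ v' = m := by
          intro z hz
          rw [Finset.mem_filter, ← hw1, hφ, hφ] at hz
          exact_mod_cast hz.2
        refine Finset.card_le_card_of_injOn Prod.fst ?_ ?_
        · intro z hz
          rw [Finset.mem_coe, Nat.mem_divisors]
          refine ⟨?_, hm0⟩
          rw [← h6 z hz]
          exact Dvd.dvd.mul_right (dvd_pow_self _ hu'.ne') _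
        · intro a ha b hb hab
          have h7 := h6 a ha
          have h8 := h6 b hb
          have hb1 := (hS b (Finset.mem_filter.1 hb).1).1
          rw [← h8, hab] at h7
          have h9 : a.2 ^ v' = b.2 ^ v' := Nat.eq_of_mul_eq_mul_left (by positivity) h7
          exact Prod.ext hab (Nat.pow_left_injective hv'0.ne' h9)
      have hmN : (m : ℝ) ≤ (N : ℝ) ^ (2 * E) := by
        have h6 : m ≤ N ^ (2 * E) := by
          have hvE : v' ≤ E := by
            have := huv.2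
            rw [hv', abs_of_nonneg (by omega)] at this
            exact_mod_cast this
          have huE : u ≤ E := by exact_mod_cast huv.1
          calc m ≤ N ^ u * N ^ v' := Nat.mul_le_mul (Nat.pow_le_pow_left hxN _) (Nat.pow_le_pow_left hyN _)
            _ = N ^ (u + v') := (pow_add _ _ _).symm
            _ ≤ N ^ (2 * E) := Nat.pow_le_pow_right hN1 (by omega)
        exact_mod_cast h6
      calc ((S.filter fun z => φ z = w).card : ℝ) ≤ m.divisors.card := by exact_mod_cast h5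
        _ ≤ C * (m : ℝ) ^ (ε / (4 * E)) := hdiv m hm0
        _ ≤ C * ((N : ℝ) ^ (2 * E)) ^ (ε / (4 * E)) := by
            refine mul_le_mul_of_nonneg_left ?_ hC.le
            exact Real.rpow_le_rpow (by positivity) hmN (by positivity)
        _ = C * (N : ℝ) ^ (ε / 2) := by
            congr 1
            rw [← Real.rpow_natCast (N : ℝ) (2 * E), ← Real.rpow_mul (by positivity)]
            congr 1
            push_cast
            field_simp
            ring
        _ ≤ C' * (N : ℝ) ^ (ε / 2) := by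
            refine mul_le_mul_of_nonneg_right (le_max_left _ _) (by positivity)
  have h5 := Finset.card_le_mul_card_image (f := φ) S _ hfib
  calc (S.card : ℝ) ≤ ((⌊C' * (N : ℝ) ^ (ε / 2)⌋₊ * (S.image φ).card : ℕ) : ℝ) := by exact_mod_cast h5
    _ ≤ (C' * (N : ℝ) ^ (ε / 2)) * E := by
        push_cast
        refine mul_le_mul (Nat.floor_le (by positivity)) (by exact_mod_cast himg) (by positivity)
          (by positivity)
    _ = ((E : ℝ) * C') * (N : ℝ) ^ (ε / 2) := by ring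
    _ ≤ (N : ℝ) ^ (ε / 2) * (N : ℝ) ^ (ε / 2) :=
        mul_le_mul_of_nonneg_right (hN0 N hN) (by positivity)
    _ = (N : ℝ) ^ ε := by
        rw [← Real.rpow_add (by linarith)]
        congr 1
        ring

end Pool.Agent.N767.LD
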